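import Mathlib

/-! Counting integers that are divisible by two large primes of one residue class. -/

namespace Pool.Agent.Lib.MP_7d3fda_nt

open Finset Filter

lemma few_primes {H : ℕ} {d : ℤ} (hd : d ≠ 0) (hH : d.natAbs ≤ H ^ 9) :
    (d.natAbs.primeFactors.filter (fun p => H < p ^ 2)).card ≤ 17 := by
  set F := d.natAbs.primeFactors.filter (fun p => H < p ^ 2) with hF
  have h1 : ∏ p ∈ F, p ≤ H ^ 9 := by
    refine le_trans (Nat.le_of_dvd (Int.natAbs_pos.2 hd) ?_) hH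
    exact (prod_dvd_prod_of_subset _ _ _ (filter_subset _ _)).trans (Nat.prod_primeFactors_dvd _)
  have h2 : (H + 1) ^ F.card ≤ ∏ p ∈ F, p ^ 2 :=
    pow_card_le_prod F _ _ (fun p hp => (mem_filter.1 hp).2)
  rw [prod_pow] at h2
  have h3 : (H + 1) ^ F.card < (H + 1) ^ 18 :=
    calc (H + 1) ^ F.card ≤ (H ^ 9) ^ 2 := h2.trans (Nat.pow_le_pow_left h1 2)
      _ = H ^ 18 := by ring
      _ < (H + 1) ^ 18 := Nat.pow_lt_pow_left (Nat.lt_succ_self H) (by norm_num)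
  have hH0 : 0 < H := by
    rcases Nat.eq_zero_or_pos H with h | h
    · rw [h] at hH; simp at hH; exact absurd hH hd
    · exact h
  have := (Nat.pow_lt_pow_iff_right (by omega)).1 h3
  omega

lemma many_primes : ∀ᶠ H : ℕ in atTop, (H : ℝ) / (4 * Real.log H) ≤
    (((range (H + 1)).filter (fun p => p.Prime ∧ H < p ^ 2)).card : ℝ) := by
  have t1 : ∀ᶠ x : ℝ in atTop, ‖Real.log x‖ ≤ (1 / 20) * ‖x ^ (1 / 2 : ℝ)‖ :=
    (isLittleO_log_rpow_atTop (by norm_num : (0 : ℝ) < 1 / 2)).bound (by norm_num)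
  filter_upwards [tendsto_natCast_atTop_atTop.eventually t1, eventually_ge_atTop 3] with H h1 h3
  have hH : (3 : ℝ) ≤ H := by exact_mod_cast h3
  have hl : 0 < Real.log H := Real.log_pos (by linarith)
  have hl1 : 1 ≤ Real.log H := by
    rw [Real.le_log_iff_exp_le (by linarith)]
    linarith [Real.exp_one_lt_d9]
  rw [← Real.sqrt_eq_rpow, Real.norm_of_nonneg hl.le, Real.norm_of_nonneg (Real.sqrt_nonneg _)]
    at h1
  have hs : √(H : ℝ) * √(H : ℝ) = H := Real.mul_self_sqrt (by linarith)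
  have hs1 : 1 ≤ √(H : ℝ) := by linarith
  have c1 : Nat.primeCounting H ≤
      ((range (H + 1)).filter (fun p => p.Prime ∧ H < p ^ 2)).card + (Nat.sqrt H + 1) := by
    rw [Nat.primeCounting, Nat.primeCounting', Nat.count_eq_card_filter_range,
      ← card_range (Nat.sqrt H + 1)]
    refine le_trans (card_le_card ?_) (card_union_le _ _)
    intro p hp
    rw [mem_filter] at hp
    rw [mem_union, mem_filter, mem_range (n := Nat.sqrt H + 1), Nat.lt_succ_iff, Nat.le_sqrt']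
    by_cases h : H < p ^ 2
    · exact Or.inl ⟨hp.1, hp.2, h⟩
    · exact Or.inr (not_lt.1 h)
  have c2 : (Nat.primeCounting H : ℝ) ≤
      (((range (H + 1)).filter (fun p => p.Prime ∧ H < p ^ 2)).card : ℝ) + 2 * √(H : ℝ) := by
    have : ((Nat.sqrt H : ℕ) : ℝ) ≤ √(H : ℝ) := Real.nat_sqrt_le_real_sqrt
    have c1' : (Nat.primeCounting H : ℝ) ≤
      (((range (H + 1)).filter (fun p => p.Prime ∧ H < p ^ 2)).card : ℝ) +
        ((Nat.sqrt H : ℕ) + 1) := by exact_mod_cast c1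
    linarith
  have c3 := Chebyshev.pi_ge H
  have c4 : Real.log (H + 1) ≤ 2 * Real.log H := by
    rw [← Real.log_rpow (by linarith), Real.rpow_two]
    exact Real.log_le_log (by linarith) (by nlinarith)
  have c5 : (H : ℝ) / (4 * Real.log H) + 2 * √(H : ℝ) ≤
      (H * Real.log 2 - Real.log (H + 1)) / Real.log H := by
    rw [le_div_iff₀ hl]
    have e : ((H : ℝ) / (4 * Real.log H) + 2 * √(H : ℝ)) * Real.log H =
      H / 4 + 2 * √(H : ℝ) * Real.log H := by field_simp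
    rw [e]
    have := Real.log_two_gt_d9
    nlinarith
  linarith

open Classical in
lemma count_nat (P : ℤ → Prop) {Q L C : ℕ} (hQ : 0 < Q)
    (h : ∀ u v : ℕ, u.Prime → v.Prime → L < u → u < v → u ≡ v [MOD Q] →
      ∃ d : ℤ, d ≠ 0 ∧ P d ∧ |d| ≤ C * (v : ℤ) ^ 8 ∧ (u : ℤ) ∣ d ∧ (v : ℤ) ∣ d) :
    ∀ᶠ H : ℕ in atTop, ((H : ℝ) / (4 * Q * Real.log H)) ^ 2 / 2 ≤
      289 * (((Icc (-(C * (H : ℤ) ^ 8)) (C * (H : ℤ) ^ 8)).filter P).card : ℝ) := by
  have t1 : ∀ᶠ x : ℝ in atTop, ‖Real.log x‖ ≤ (1 / (8 * Q)) * ‖x‖ :=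
    Real.isLittleO_log_id_atTop.bound (by positivity)
  filter_upwards [many_primes, tendsto_natCast_atTop_atTop.eventually t1, eventually_ge_atTop 3,
    eventually_ge_atTop C, eventually_ge_atTop (L ^ 2)] with H h1 h2 h3 hC hL
  have hH : (3 : ℝ) ≤ H := by exact_mod_cast h3
  have hl : 0 < Real.log H := Real.log_pos (by linarith)
  have hQ' : (0 : ℝ) < Q := by exact_mod_cast hQ
  rw [Real.norm_of_nonneg hl.le, Real.norm_of_nonneg (by linarith)] at h2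
  set S := (range (H + 1)).filter (fun p => p.Prime ∧ H < p ^ 2) with hS
  set b : ℝ := (H : ℝ) / (4 * Q * Real.log H) with hb
  have hb2 : 2 ≤ b := by
    rw [hb, le_div_iff₀ (by positivity)]
    rw [one_div, inv_mul_eq_div, le_div_iff₀ (by positivity)] at h2
    linarith
  obtain ⟨r, -, hr⟩ := exists_le_card_fiber_of_nsmul_le_card_of_maps_to (s := S) (t := range Q)
    (f := fun p => p % Q) (b := b) (fun p _ => mem_range.2 (Nat.mod_lt _ hQ))
    ⟨0, mem_range.2 hQ⟩ (by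
      rw [card_range, nsmul_eq_mul]
      refine le_trans (le_of_eq ?_) h1
      rw [hb]; field_simp)
  set S' := S.filter (fun p => p % Q = r) with hS'
  set A := (Icc (-(C * (H : ℤ) ^ 8)) (C * (H : ℤ) ^ 8)).filter P with hA
  set F : ℤ → Finset ℕ := fun d => d.natAbs.primeFactors.filter (fun p => H < p ^ 2) with hF
  have key : ∀ u ∈ S', ∀ v ∈ S', u < v → ∃ d ∈ A.erase 0, u ∈ F d ∧ v ∈ F d := by
    intro u hu v hv huv
    simp only [hS', hS, mem_filter, mem_range] at hu hv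
    obtain ⟨⟨-, hu2, hu3⟩, hu4⟩ := hu
    obtain ⟨⟨hv1, hv2, hv3⟩, hv4⟩ := hv
    obtain ⟨d, d0, dP, dC, du, dv⟩ := h u v hu2 hv2
      (lt_of_pow_lt_pow_left₀ 2 (Nat.zero_le _) (lt_of_le_of_lt hL hu3)) huv (hu4.trans hv4.symm)
    have hvH : (v : ℤ) ≤ H := by exact_mod_cast Nat.lt_succ_iff.1 hv1
    have : |d| ≤ C * (H : ℤ) ^ 8 := dC.trans (by gcongr)
    refine ⟨d, mem_erase.2 ⟨d0, mem_filter.2 ⟨mem_Icc.2 (abs_le.1 this), dP⟩⟩, ?_, ?_⟩
    · exact mem_filter.2 ⟨Nat.mem_primeFactors.2 ⟨hu2, Int.natCast_dvd.1 du, by omega⟩, hu3⟩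
    · exact mem_filter.2 ⟨Nat.mem_primeFactors.2 ⟨hv2, Int.natCast_dvd.1 dv, by omega⟩, hv3⟩
  have sub : S'.offDiag ⊆ (A.erase 0).biUnion (fun d => F d ×ˢ F d) := by
    rintro ⟨u, v⟩ huv
    obtain ⟨hu, hv, hne⟩ := mem_offDiag.1 huv
    rw [mem_biUnion]
    rcases lt_or_gt_of_ne hne with hlt | hlt
    · obtain ⟨d, hd, a1, a2⟩ := key u hu v hv hlt
      exact ⟨d, hd, mem_product.2 ⟨a1, a2⟩⟩
    · obtain ⟨d, hd, a1, a2⟩ := key v hv u hu hlt
      exact ⟨d, hd, mem_product.2 ⟨a2, a1⟩⟩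
  have c1 : S'.offDiag.card ≤ (A.erase 0).card * 289 := by
    refine (card_le_card sub).trans (card_biUnion_le_card_mul _ _ _ ?_)
    intro d hd
    obtain ⟨d0, hd⟩ := mem_erase.1 hd
    have h1 : |d| ≤ C * (H : ℤ) ^ 8 := abs_le.2 (mem_Icc.1 (mem_filter.1 hd).1)
    have h2 : d.natAbs ≤ H ^ 9 := by
      have hC' : (C : ℤ) ≤ H := by exact_mod_cast hC
      have : |d| ≤ (H : ℤ) ^ 9 := h1.trans (by rw [pow_succ' _ 8]; gcongr)
      rw [← Int.natCast_natAbs] at this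
      exact_mod_cast this
    have := few_primes d0 h2
    rw [card_product]
    exact Nat.mul_le_mul this this
  have c2 : S'.card * S'.card ≤ A.card * 289 + S'.card := by
    rw [offDiag_card] at c1
    have := card_erase_le (s := A) (a := 0)
    omega
  have c3 : (S'.card : ℝ) * S'.card ≤ A.card * 289 + S'.card := by exact_mod_cast c2
  nlinarith

theorem count (P : ℤ → Prop) {Q L C : ℕ} (hQ : 0 < Q) (hC : 0 < C)
    (h : ∀ u v : ℕ, u.Prime → v.Prime → L < u → u < v → u ≡ v [MOD Q] →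
      ∃ d : ℤ, d ≠ 0 ∧ P d ∧ |d| ≤ C * (v : ℤ) ^ 8 ∧ (u : ℤ) ∣ d ∧ (v : ℤ) ∣ d) :
    ∃ c : ℝ, 0 < c ∧ ∀ᶠ D : ℝ in atTop, c * D ^ (1 / 4 : ℝ) / Real.log D ^ 2 ≤
      (({d : ℤ | |(d : ℝ)| ≤ D ∧ P d}).ncard : ℝ) := by
  classical
  have hC' : (1 : ℝ) ≤ C := by exact_mod_cast hC
  have hQ' : (0 : ℝ) < Q := by exact_mod_cast hQ
  have tt : Tendsto (fun D : ℝ => ⌊(D / C) ^ (1 / 8 : ℝ)⌋₊) atTop atTop :=
    tendsto_nat_floor_atTop.comp ((tendsto_rpow_atTop (by norm_num)).comp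
      (tendsto_id.atTop_div_const (by linarith)))
  refine ⟨1 / (289 * 128 * Q ^ 2 * C), by positivity, ?_⟩
  filter_upwards [tt.eventually (count_nat P hQ h), tt.eventually_ge_atTop 2,
    eventually_ge_atTop 1] with D h1 h2 hD
  set y : ℝ := (D / C) ^ (1 / 8 : ℝ) with hy
  set H : ℕ := ⌊y⌋₊ with hH
  have hDC : 0 ≤ D / C := by positivity
  have y0 : 0 ≤ y := Real.rpow_nonneg hDC _
  have y8 : y ^ 8 = D / C := by
    rw [hy, ← Real.rpow_natCast, ← Real.rpow_mul hDC]; norm_num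
  have hH2 : (2 : ℝ) ≤ H := by exact_mod_cast h2
  have Hy : (H : ℝ) ≤ y := Nat.floor_le y0
  have yH : y ≤ 2 * H := by linarith [Nat.lt_floor_add_one y]
  have CH : (C : ℝ) * (H : ℝ) ^ 8 ≤ D := by
    have : (H : ℝ) ^ 8 ≤ D / C := y8 ▸ pow_le_pow_left₀ (by linarith) Hy 8
    rwa [le_div_iff₀' (by linarith)] at this
  have HD : (H : ℝ) ≤ D := by
    have : (H : ℝ) ≤ (H : ℝ) ^ 8 := le_self_pow₀ (by linarith) (by norm_num)
    nlinarith
  have hl : 0 < Real.log H := Real.log_pos (by linarith)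
  have hl2 : Real.log H ≤ Real.log D := Real.log_le_log (by linarith) HD
  have D4 : D ^ (1 / 4 : ℝ) ≤ 4 * C * (H : ℝ) ^ 2 := by
    have e : D ^ (1 / 4 : ℝ) = (C : ℝ) ^ (1 / 4 : ℝ) * y ^ 2 := by
      rw [hy, ← Real.rpow_natCast, ← Real.rpow_mul hDC,
        show (1 / 8 : ℝ) * (2 : ℕ) = 1 / 4 by norm_num, ← Real.mul_rpow (by linarith) hDC]
      congr 1; field_simp
    have e2 : (C : ℝ) ^ (1 / 4 : ℝ) ≤ C := by
      simpa using Real.rpow_le_rpow_of_exponent_le hC' (by norm_num : (1 / 4 : ℝ) ≤ 1)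
    rw [e]
    calc (C : ℝ) ^ (1 / 4 : ℝ) * y ^ 2 ≤ C * (2 * H) ^ 2 := by gcongr
      _ = _ := by ring
  have fin : ({d : ℤ | |(d : ℝ)| ≤ D ∧ P d}).Finite := by
    refine (Set.finite_Icc (-⌈D⌉) ⌈D⌉).subset ?_
    rintro d ⟨hd, -⟩
    have : |d| ≤ ⌈D⌉ := by exact_mod_cast (show ((|d| : ℤ) : ℝ) ≤ (⌈D⌉ : ℤ) by
      push_cast; exact hd.trans (Int.le_ceil D))
    exact abs_le.1 this
  have c1 : ((Icc (-(C * (H : ℤ) ^ 8)) (C * (H : ℤ) ^ 8)).filter P).card ≤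
      ({d : ℤ | |(d : ℝ)| ≤ D ∧ P d}).ncard := by
    rw [← Set.ncard_coe_finset]
    refine Set.ncard_le_ncard ?_ fin
    intro d hd
    obtain ⟨a1, a2⟩ := mem_filter.1 (mem_coe.1 hd)
    refine ⟨le_trans ?_ CH, a2⟩
    exact_mod_cast abs_le.2 (mem_Icc.1 a1)
  have c2 : (((Icc (-(C * (H : ℤ) ^ 8)) (C * (H : ℤ) ^ 8)).filter P).card : ℝ) ≤
      ({d : ℤ | |(d : ℝ)| ≤ D ∧ P d}).ncard := by exact_mod_cast c1
  have c3 : 1 / (289 * 128 * Q ^ 2 * C) * D ^ (1 / 4 : ℝ) / Real.log D ^ 2 ≤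
      ((H : ℝ) / (4 * Q * Real.log H)) ^ 2 / 2 / 289 :=
    calc 1 / (289 * 128 * Q ^ 2 * C) * D ^ (1 / 4 : ℝ) / Real.log D ^ 2
        ≤ 1 / (289 * 128 * Q ^ 2 * C) * (4 * C * (H : ℝ) ^ 2) / Real.log H ^ 2 := by gcongr
      _ = _ := by field_simp; ring
  linarith

end Pool.Agent.Lib.MP_7d3fda_nt
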