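import Mathlib

/-! Two-isogeny descent by valuations on `y^2 = x^3 + B x`, and an independence criterion. -/

namespace Pool.Agent.Lib.MP_7d3fda_nt

open WeierstrassCurve WeierstrassCurve.Affine

/-- The curve `y^2 = x^3 + B x`. -/
def cv (B : ℚ) : WeierstrassCurve.Affine ℚ := ⟨0, 0, 0, B, 0⟩

lemma cv_eqn {B x y : ℚ} (h : (cv B).Nonsingular x y) : y ^ 2 = x ^ 3 + B * x := by
  have := (equation_iff _ _).1 h.left
  simp only [cv] at this
  linear_combination this

lemma cv_negY (B x y : ℚ) : (cv B).negY x y = -y := by simp [cv, negY]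

lemma cv_nonsing {B x y : ℚ} (hB : B ≠ 0) (h : y ^ 2 = x ^ 3 + B * x) :
    (cv B).Nonsingular x y := by
  have hD : (cv B).Δ ≠ 0 := by
    have : (cv B).Δ = -64 * B ^ 3 := by
      simp only [cv, WeierstrassCurve.Δ, b₂, b₄, b₆, b₈]; ring
    rw [this]; positivity
  rw [← equation_iff_nonsingular_of_Δ_ne_zero hD, equation_iff]
  simp only [cv]
  linear_combination h

lemma collinear {B x₁ y₁ x₂ y₂ : ℚ} (h₁ : (cv B).Nonsingular x₁ y₁)
    (h₂ : (cv B).Nonsingular x₂ y₂) (hxy : ¬(x₁ = x₂ ∧ y₁ = (cv B).negY x₂ y₂)) :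
    ∃ l n : ℚ, x₁ * x₂ * (cv B).addX x₁ x₂ ((cv B).slope x₁ x₂ y₁ y₂) = n ^ 2 ∧
      x₁ * x₂ + x₁ * (cv B).addX x₁ x₂ ((cv B).slope x₁ x₂ y₁ y₂) +
        x₂ * (cv B).addX x₁ x₂ ((cv B).slope x₁ x₂ y₁ y₂) = B - 2 * l * n := by
  have h := addPolynomial_slope h₁.left h₂.left hxy
  rw [addPolynomial_eq, neg_inj, Cubic.prod_X_sub_C_eq, Cubic.toPoly_injective] at h
  set l := (cv B).slope x₁ x₂ y₁ y₂
  set x₃ := (cv B).addX x₁ x₂ l
  have hc := congrArg Cubic.c h
  have hd := congrArg Cubic.d h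
  simp only [cv] at hc hd
  exact ⟨l, y₁ - l * x₁, by linear_combination hd, by linear_combination -hc⟩

/-- parity of a `q`-adic valuation -/
def par (q : ℕ) (x : ℚ) : ZMod 2 := ((padicValRat q x : ℤ) : ZMod 2)

lemma par_mul {q : ℕ} [Fact q.Prime] {x y : ℚ} (hx : x ≠ 0) (hy : y ≠ 0) :
    par q (x * y) = par q x + par q y := by
  simp only [par, padicValRat.mul hx hy, Int.cast_add]

lemma par_sq {q : ℕ} [Fact q.Prime] (x : ℚ) : par q (x ^ 2) = 0 := by
  by_cases hx : x = 0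
  · simp [hx, par]
  · rw [sq, par_mul hx hx]; exact CharTwo.add_self_eq_zero _

lemma par_zero (q : ℕ) : par q 0 = 0 := by simp [par]

lemma par_three {q : ℕ} [Fact q.Prime] {B x₁ x₂ x₃ l n : ℚ} (hB : B ≠ 0) (hq : par q B = 0)
    (h1 : x₁ * x₂ * x₃ = n ^ 2) (h2 : x₁ * x₂ + x₁ * x₃ + x₂ * x₃ = B - 2 * l * n) :
    par q x₃ = par q x₁ + par q x₂ := by
  have key : par q x₁ + par q x₂ + par q x₃ = 0 := by
    by_cases a1 : x₁ = 0
    · have hn : n = 0 := by rw [a1] at h1; exact pow_eq_zero_iff (two_ne_zero) |>.1 (by linarith)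
      have e : x₂ * x₃ = B := by rw [a1, hn] at h2; linarith
      have b2 : x₂ ≠ 0 := fun h => hB (by rw [← e, h, zero_mul])
      have b3 : x₃ ≠ 0 := fun h => hB (by rw [← e, h, mul_zero])
      rw [a1, par_zero, zero_add, ← par_mul b2 b3, e, hq]
    by_cases a2 : x₂ = 0
    · have hn : n = 0 := by rw [a2] at h1; exact pow_eq_zero_iff (two_ne_zero) |>.1 (by linarith)
      have e : x₁ * x₃ = B := by rw [a2, hn] at h2; linarith
      have b3 : x₃ ≠ 0 := fun h => hB (by rw [← e, h, mul_zero])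
      rw [a2, par_zero, add_zero, ← par_mul a1 b3, e, hq]
    by_cases a3 : x₃ = 0
    · have hn : n = 0 := by rw [a3] at h1; exact pow_eq_zero_iff (two_ne_zero) |>.1 (by linarith)
      have e : x₁ * x₂ = B := by rw [a3, hn] at h2; linarith
      rw [a3, par_zero, add_zero, ← par_mul a1 a2, e, hq]
    rw [← par_mul a1 a2, ← par_mul (mul_ne_zero a1 a2) a3, h1, par_sq]
  have := CharTwo.add_eq_zero.1 key
  exact this.symm

/-- parity of the valuation of the `x`-coordinate -/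
def nuFun (B : ℚ) (q : ℕ) : (cv B).Point → ZMod 2
  | .zero => 0
  | .some x _ _ => par q x

/-- the descent homomorphism at `q` -/
def nu (B : ℚ) (hB : B ≠ 0) (q : ℕ) [Fact q.Prime] (hq : par q B = 0) :
    (cv B).Point →+ ZMod 2 where
  toFun := nuFun B q
  map_zero' := rfl
  map_add' := by
    rintro (_ | ⟨x₁, y₁, h₁⟩) (_ | ⟨x₂, y₂, h₂⟩)
    · simp [← Point.zero_def, nuFun]
    · simp only [← Point.zero_def, zero_add]; simp [nuFun]
    · simp only [← Point.zero_def, add_zero]; simp [nuFun]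
    by_cases hxy : x₁ = x₂ ∧ y₁ = (cv B).negY x₂ y₂
    · rw [Point.add_of_Y_eq hxy.1 hxy.2]
      simp only [nuFun, hxy.1]
      rw [CharTwo.add_self_eq_zero]
    · rw [Point.add_some hxy]
      obtain ⟨l, n, e1, e2⟩ := collinear h₁ h₂ hxy
      exact par_three hB hq e1 e2

lemma nu_some {B : ℚ} (hB : B ≠ 0) (q : ℕ) [Fact q.Prime] (hq : par q B = 0) {x y : ℚ}
    (h : (cv B).Nonsingular x y) : nu B hB q hq (.some x y h) = par q x := rfl

lemma par_B_of_mod {B : ℚ} {u : ℕ} (hu : padicValRat u B % 4 = 2) : par u B = 0 := by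
  rw [par, ZMod.intCast_zmod_eq_zero_iff_dvd]
  push_cast
  omega

lemma par_root {B x : ℚ} {u : ℕ} [Fact u.Prime] (hu : padicValRat u B % 4 = 2) (hB : B ≠ 0)
    (h : x ^ 2 = B ∨ x ^ 2 = -B) : par u x ≠ 0 := by
  have hx : x ≠ 0 := by
    rintro rfl
    rcases h with h | h
    · exact hB (by linarith)
    · exact hB (by linarith)
  have e : padicValRat u (x ^ 2) = padicValRat u B := by
    rcases h with h | h
    · rw [h]
    · rw [h, padicValRat.neg]
  rw [padicValRat.pow] at e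
  rw [par, Ne, ZMod.intCast_zmod_eq_zero_iff_dvd]
  push_cast at e ⊢
  omega

/-- a point killed by two with even valuation at `u` has `x = 0` or is the origin -/
lemma two_torsion {B : ℚ} (hB : B ≠ 0) {u : ℕ} [Fact u.Prime] (hu : padicValRat u B % 4 = 2)
    (R : (cv B).Point) (h2 : R + R = 0) (hR : nu B hB u (par_B_of_mod hu) R = 0) :
    R = 0 ∨ ∃ y h, R = .some 0 y h := by
  rcases R with _ | ⟨x, y, h⟩
  · exact Or.inl rfl
  right
  have hy : y = (cv B).negY x y := by
    by_contra hy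
    rw [Point.add_self_of_Y_ne hy] at h2
    exact Point.some_ne_zero _ h2
  rw [cv_negY] at hy
  have hy0 : y = 0 := by linarith
  have e := cv_eqn h
  by_cases hx : x = 0
  · subst hx; exact ⟨y, h, rfl⟩
  exfalso
  have : x ^ 2 = -B := by
    have : x * (x ^ 2 + B) = 0 := by rw [hy0] at e; linarith
    have := (mul_eq_zero.1 this).resolve_left hx
    linarith
  exact par_root hu hB (Or.inr this) hR

lemma four_torsion {B : ℚ} (hB : B ≠ 0) {u : ℕ} [Fact u.Prime] (hu2 : u ≠ 2)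
    (hu : padicValRat u B % 4 = 2) (R : (cv B).Point) (h4 : (R + R) + (R + R) = 0) :
    R + R = 0 := by
  have hn : nu B hB u (par_B_of_mod hu) (R + R) = 0 := by
    rw [map_add]; exact CharTwo.add_self_eq_zero _
  rcases two_torsion hB hu _ h4 hn with h | ⟨y', h', hR⟩
  · exact h
  exfalso
  rcases R with _ | ⟨x, y, h⟩
  · rw [← Point.zero_def, add_zero] at hR
    exact Point.some_ne_zero _ hR.symm
  by_cases hy : y = (cv B).negY x y
  · rw [Point.add_self_of_Y_eq hy] at hR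
    exact Point.some_ne_zero _ hR.symm
  rw [Point.add_self_of_Y_ne hy] at hR
  have hx3 : (cv B).addX x x ((cv B).slope x x y y) = 0 := by
    injection hR
  obtain ⟨l, n, e1, e2⟩ := collinear h h (fun hxy => hy hxy.right)
  rw [hx3] at e1 e2
  have hn0 : n = 0 := pow_eq_zero_iff (two_ne_zero) |>.1 (by linarith)
  have hxx : x ^ 2 = B := by rw [hn0] at e2; linarith
  have hx0 : x ≠ 0 := fun h0 => hB (by rw [← hxx, h0]; ring)
  have e := cv_eqn h
  have e3 : 2 * x = (y / x) ^ 2 := by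
    field_simp
    rw [e, ← hxx]; ring
  have p2 : par u 2 = 0 := by
    have : padicValRat u 2 = 0 := by
      have h1 : padicValNat u 2 = 0 := padicValNat.eq_zero_of_not_dvd (fun hd =>
        hu2 ((Nat.prime_dvd_prime_iff_eq Fact.out Nat.prime_two).1 hd))
      have h2 : padicValRat u ((2 : ℕ) : ℚ) = padicValNat u 2 := padicValRat.of_nat
      rw [h1] at h2
      exact_mod_cast h2
    simp [par, this]
  have := par_mul (q := u) (two_ne_zero) hx0
  rw [e3, par_sq, p2, zero_add] at this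
  exact par_root hu hB (Or.inl hxx) this.symm

theorem rank_two {B : ℚ} (hB : B ≠ 0) {u q₁ q₃ : ℕ} [Fact u.Prime] [Fact q₁.Prime]
    [Fact q₃.Prime] (hu2 : u ≠ 2) (hu : padicValRat u B % 4 = 2) (h₁ : par q₁ B = 0)
    (h₃ : par q₃ B = 0) {x₁ y₁ x₂ y₂ : ℚ} (e₁ : y₁ ^ 2 = x₁ ^ 3 + B * x₁)
    (e₂ : y₂ ^ 2 = x₂ ^ 3 + B * x₂) (a₁ : par u x₁ = 0) (a₂ : par u x₂ = 0)
    (b₁ : par q₁ x₁ = 1) (b₂ : par q₁ x₂ = 0) (c₂ : par q₃ x₂ = 1) :
    2 ≤ Module.rank ℤ (cv B).Point := by
  set P : (cv B).Point := .some x₁ y₁ (cv_nonsing hB e₁) with hP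
  set Q : (cv B).Point := .some x₂ y₂ (cv_nonsing hB e₂) with hQ
  have step : ∀ m n : ℤ, (m • P + n • Q) + (m • P + n • Q) = 0 → Even m ∧ Even n := by
    intro m n h
    have hn : nu B hB u (par_B_of_mod hu) (m • P + n • Q) = 0 := by
      rw [map_add, map_zsmul, map_zsmul, hP, hQ, nu_some, nu_some, a₁, a₂]; simp
    have z : nu B hB q₁ h₁ (m • P + n • Q) = 0 ∧ nu B hB q₃ h₃ (m • P + n • Q) = 0 := by
      rcases two_torsion hB hu _ h hn with h0 | ⟨y, hy, h0⟩
      · rw [h0]; simp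
      · rw [h0, nu_some, nu_some, par_zero, par_zero]; simp
    obtain ⟨z1, z3⟩ := z
    rw [map_add, map_zsmul, map_zsmul, hP, hQ, nu_some, nu_some] at z1 z3
    rw [b₁, b₂] at z1
    have hm : Even m := by
      rw [← ZMod.intCast_eq_zero_iff_even]
      simpa using z1
    refine ⟨hm, ?_⟩
    rw [c₂, zsmul_eq_mul, ZMod.intCast_eq_zero_iff_even.2 hm] at z3
    rw [← ZMod.intCast_eq_zero_iff_even]
    simpa using z3
  have main : ∀ N : ℕ, ∀ m n : ℤ, m.natAbs + n.natAbs ≤ N →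
      (m • P + n • Q) + (m • P + n • Q) = 0 → m = 0 ∧ n = 0 := by
    intro N
    induction N with
    | zero => intro m n h _; constructor <;> omega
    | succ N ih =>
      intro m n hN h
      obtain ⟨⟨m', hm⟩, ⟨n', hn⟩⟩ := step m n h
      by_cases h0 : m' = 0 ∧ n' = 0
      · constructor <;> omega
      have e : m • P + n • Q = (m' • P + n' • Q) + (m' • P + n' • Q) := by
        rw [hm, hn, add_zsmul, add_zsmul]; abel
      rw [e] at h
      have := ih m' n' (by omega) (four_torsion hB hu2 hu _ h)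
      exact absurd this h0
  have li : LinearIndependent ℤ ![P, Q] := by
    rw [LinearIndependent.pair_iff]
    intro m n h
    exact main _ m n le_rfl (by rw [h, add_zero])
  simpa using li.cardinal_le_rank

end Pool.Agent.Lib.MP_7d3fda_nt
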