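import Pool.Agent.Lib.MP_7d3fda_nt.Descent

/-! The genus three family of rank two twists of `y^2 = x^3 + a x`. -/

namespace Pool.Agent.Lib.MP_7d3fda_nt

lemma val0 {q : ℕ} {z : ℤ} (h : ¬(q : ℤ) ∣ z) : padicValRat q (z : ℚ) = 0 := by
  rw [padicValRat.of_int, padicValInt.eq_zero_of_not_dvd h]; rfl

lemma val1 {q : ℕ} [Fact q.Prime] {z : ℤ} (h : (q : ℤ) ∣ z) (h2 : ¬(q : ℤ) ^ 2 ∣ z) :
    padicValRat q (z : ℚ) = 1 := by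
  have hz : z ≠ 0 := by rintro rfl; exact h2 (dvd_zero _)
  rw [padicValInt_dvd_iff] at h2
  rw [← pow_one (q : ℤ), padicValInt_dvd_iff] at h
  rw [padicValRat.of_int]
  have : padicValInt q z = 1 := by
    rcases h with h | h
    · exact absurd h hz
    · have := not_or.1 h2
      omega
  rw [this]; rfl

lemma par0 {q : ℕ} {z : ℤ} (h : ¬(q : ℤ) ∣ z) : par q (z : ℚ) = 0 := by
  rw [par, val0 h]; rfl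

lemma par1 {q : ℕ} [Fact q.Prime] {z : ℤ} (h : (q : ℤ) ∣ z) (h2 : ¬(q : ℤ) ^ 2 ∣ z) :
    par q (z : ℚ) = 1 := by
  rw [par, val1 h h2]; rfl

lemma par_mul_sq {q : ℕ} [Fact q.Prime] {x y r : ℚ} (hx : x ≠ 0) (hy : y ≠ 0) (hr : r ≠ 0) :
    par q (x * y * r ^ 2) = par q x + par q y := by
  rw [par_mul (mul_ne_zero hx hy) (pow_ne_zero 2 hr), par_sq, add_zero, par_mul hx hy]

theorem family {a U V A₁ A₂ A₃ G : ℤ} {K : ℚ} (hK : K ≠ 0) (e₁ : A₁ = V ^ 2 + 16 * a * U ^ 2)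
    (e₂ : A₂ = V ^ 2 - 20 * a * U ^ 2) (e₃ : A₃ = V ^ 2 + 25 * a * U ^ 2)
    (eG : G = U * V * A₁ * A₂ * A₃) {u q₁ q₃ : ℕ} [Fact u.Prime] [Fact q₁.Prime]
    [Fact q₃.Prime] (hu2 : u ≠ 2) (ua : ¬(u : ℤ) ∣ a) (u1 : ¬(u : ℤ) ∣ A₁) (u3 : ¬(u : ℤ) ∣ A₃)
    (uG : (u : ℤ) ∣ G) (uG2 : ¬(u : ℤ) ^ 2 ∣ G) (qa : ¬(q₁ : ℤ) ∣ a) (q1 : (q₁ : ℤ) ∣ A₁)
    (q12 : ¬(q₁ : ℤ) ^ 2 ∣ A₁) (q13 : ¬(q₁ : ℤ) ∣ A₃) (ra : ¬(q₃ : ℤ) ∣ a)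
    (r3 : (q₃ : ℤ) ∣ A₃) (r32 : ¬(q₃ : ℤ) ^ 2 ∣ A₃) :
    2 ≤ Module.rank ℤ (cv ((a : ℚ) * ((G : ℚ) / K ^ 2) ^ 2)).Point := by
  have hG : G ≠ 0 := by rintro rfl; exact uG2 (dvd_zero _)
  have ha : a ≠ 0 := by rintro rfl; exact ua (dvd_zero _)
  have hG' := hG
  rw [eG] at hG'
  simp only [ne_eq, mul_eq_zero, not_or] at hG'
  obtain ⟨⟨⟨⟨hU, hV⟩, h1⟩, h2⟩, h3⟩ := hG'
  have ha' : (a : ℚ) ≠ 0 := by exact_mod_cast ha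
  have hGq : (G : ℚ) ≠ 0 := by exact_mod_cast hG
  have hU' : (U : ℚ) ≠ 0 := by exact_mod_cast hU
  have h1' : (A₁ : ℚ) ≠ 0 := by exact_mod_cast h1
  have h2' : (A₂ : ℚ) ≠ 0 := by exact_mod_cast h2
  have h3' : (A₃ : ℚ) ≠ 0 := by exact_mod_cast h3
  have hr : (G : ℚ) / K ^ 2 ≠ 0 := by positivity
  have hB : (a : ℚ) * ((G : ℚ) / K ^ 2) ^ 2 ≠ 0 := by positivity
  have pB : ∀ (q : ℕ) [Fact q.Prime], ¬(q : ℤ) ∣ a →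
      par q ((a : ℚ) * ((G : ℚ) / K ^ 2) ^ 2) = 0 := by
    intro q _ h
    rw [par_mul ha' (pow_ne_zero 2 hr), par_sq, par0 h, add_zero]
  have r₁ : (A₂ : ℚ) / (3 * K) ≠ 0 := by positivity
  have r₂ : (U : ℚ) * A₂ / K ≠ 0 := by positivity
  have eG' : (G : ℚ) = U * V * A₁ * A₂ * A₃ := by exact_mod_cast eG
  have e₁' : (A₁ : ℚ) = V ^ 2 + 16 * a * U ^ 2 := by exact_mod_cast e₁
  have e₂' : (A₂ : ℚ) = V ^ 2 - 20 * a * U ^ 2 := by exact_mod_cast e₂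
  have e₃' : (A₃ : ℚ) = V ^ 2 + 25 * a * U ^ 2 := by exact_mod_cast e₃
  refine rank_two (u := u) (q₁ := q₁) (q₃ := q₃) hB hu2 ?_ (pB q₁ qa) (pB q₃ ra)
    (x₁ := (A₁ : ℚ) * A₃ * ((A₂ : ℚ) / (3 * K)) ^ 2)
    (y₁ := (A₁ : ℚ) ^ 2 * A₃ ^ 2 * A₂ ^ 2 / (27 * K ^ 3))
    (x₂ := (a : ℚ) * A₃ * ((U : ℚ) * A₂ / K) ^ 2)
    (y₂ := (a : ℚ) * U ^ 2 * A₂ ^ 2 * A₃ ^ 2 * (V ^ 2 + 4 * a * U ^ 2) / K ^ 3)
    ?_ ?_ ?_ ?_ ?_ ?_ ?_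
  · rw [padicValRat.mul ha' (pow_ne_zero 2 hr), padicValRat.pow,
      padicValRat.div hGq (pow_ne_zero 2 hK), padicValRat.pow, val0 ua, val1 uG uG2]
    push_cast
    omega
  · have k : (A₂ : ℚ) ^ 2 + 81 * a * U ^ 2 * V ^ 2 = A₁ * A₃ := by rw [e₁', e₂', e₃']; ring
    rw [eG']
    field_simp
    linear_combination (-729 : ℚ) * k
  · have k : (a : ℚ) * U ^ 2 * A₂ ^ 2 + V ^ 2 * A₁ ^ 2 = A₃ * (V ^ 2 + 4 * a * U ^ 2) ^ 2 := by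
      rw [e₁', e₂', e₃']; ring
    rw [eG']
    field_simp
    linear_combination (-1 : ℚ) * k
  · rw [par_mul_sq h1' h3' r₁, par0 u1, par0 u3, add_zero]
  · rw [par_mul_sq ha' h3' r₂, par0 ua, par0 u3, add_zero]
  · rw [par_mul_sq h1' h3' r₁, par1 q1 q12, par0 q13, add_zero]
  · rw [par_mul_sq ha' h3' r₂, par0 qa, par0 q13, add_zero]
  · rw [par_mul_sq ha' h3' r₂, par0 ra, par1 r3 r32, zero_add]

lemma adjust (c w R : ℤ) {q : ℕ} (hq : q.Prime) (h : (q : ℤ) ∣ 1 + c * w ^ 4)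
    (h2 : ¬(q : ℤ) ∣ 2) (hR : ¬(q : ℤ) ∣ R) :
    ∃ w' : ℤ, R ∣ w' - w ∧ (q : ℤ) ∣ 1 + c * w' ^ 4 ∧ ¬(q : ℤ) ^ 2 ∣ 1 + c * w' ^ 4 := by
  by_cases h0 : (q : ℤ) ^ 2 ∣ 1 + c * w ^ 4
  swap
  · exact ⟨w, by simp, h, h0⟩
  have hp : Prime (q : ℤ) := Nat.prime_iff_prime_int.1 hq
  have e : 1 + c * (w + q * R) ^ 4 = (1 + c * w ^ 4) + q * (2 * 2 * (c * w ^ 3) * R) +
      (q : ℤ) ^ 2 * (c * (6 * w ^ 2 * R ^ 2 + 4 * w * q * R ^ 3 + q ^ 2 * R ^ 4)) := by ring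
  refine ⟨w + q * R, by simp, ?_, ?_⟩
  · rw [e]
    exact dvd_add (dvd_add h (dvd_mul_right _ _)) (Dvd.dvd.mul_right (dvd_pow_self _ two_ne_zero) _)
  · rw [e]
    intro hd
    have h3 : (q : ℤ) ^ 2 ∣ q * (2 * 2 * (c * w ^ 3) * R) :=
      (dvd_add_right h0).1 ((dvd_add_left (dvd_mul_right _ _)).1 hd)
    rw [sq, mul_dvd_mul_iff_left hp.ne_zero] at h3
    rcases hp.dvd_or_dvd h3 with h4 | h4
    · rcases hp.dvd_or_dvd h4 with h5 | h5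
      · exact h2 ((hp.dvd_or_dvd h5).elim id id)
      · have : (q : ℤ) ∣ c * w ^ 4 := by
          have : c * w ^ 4 = c * w ^ 3 * w := by ring
          rw [this]; exact h5.mul_right _
        exact hp.not_dvd_one ((dvd_add_left this).1 h)
    · exact hR h4

lemma aux_primes {a : ℤ} (ha : a ≠ 0) {N : ℕ} (hN : 0 < N) :
    ∃ (n : ℤ) (q₁ q₃ : ℕ), q₁.Prime ∧ q₃.Prime ∧ (N : ℤ) ∣ n ∧
      (q₁ : ℤ) ∣ 1 + 16 * a * n ^ 4 ∧ ¬(q₁ : ℤ) ^ 2 ∣ 1 + 16 * a * n ^ 4 ∧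
      ¬(q₁ : ℤ) ∣ 1 + 25 * a * n ^ 4 ∧
      (q₃ : ℤ) ∣ 1 + 25 * a * n ^ 4 ∧ ¬(q₃ : ℤ) ^ 2 ∣ 1 + 25 * a * n ^ 4 := by
  have nd : ∀ (q : ℕ) (c w : ℤ), q.Prime → (q : ℤ) ∣ 1 + c * w ^ 4 → ¬(q : ℤ) ∣ w := by
    intro q c w hq h hw
    exact (Nat.prime_iff_prime_int.1 hq).not_dvd_one
      ((dvd_add_left ((dvd_pow hw (by norm_num)).mul_left c)).1 h)
  have nine : ∀ (q : ℕ) (w : ℤ), q.Prime → (6 * N : ℤ) ∣ w → (q : ℤ) ∣ 1 + 16 * a * w ^ 4 →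
      ¬(q : ℤ) ∣ 1 + 25 * a * w ^ 4 := by
    intro q w hq hw h1 h2
    have h9 : (q : ℤ) ∣ 3 ^ 2 := by
      have := dvd_sub (h1.mul_left 25) (h2.mul_left 16)
      have e : 25 * (1 + 16 * a * w ^ 4) - 16 * (1 + 25 * a * w ^ 4) = 3 ^ 2 := by ring
      rwa [e] at this
    have h3 := (Nat.prime_iff_prime_int.1 hq).dvd_of_dvd_pow h9
    exact nd q _ w hq h1 (h3.trans (Dvd.dvd.trans ⟨2 * N, by ring⟩ hw))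
  have hN' : (6 * N : ℤ) ≠ 0 := by positivity
  obtain ⟨q₁, hq₁, d₁⟩ := Nat.exists_prime_and_dvd
    (n := (1 + 16 * a * (6 * N : ℤ) ^ 4).natAbs) (by
      have : a * (6 * N : ℤ) ^ 4 ≠ 0 := by positivity
      rw [mul_assoc]
      generalize a * (6 * N : ℤ) ^ 4 = t at this
      omega)
  rw [← Int.natCast_dvd] at d₁
  have n₁ := nd q₁ _ _ hq₁ d₁
  obtain ⟨w, hw, d₂, d₃⟩ := adjust (16 * a) (6 * N) (6 * N) hq₁ d₁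
    (fun h => n₁ (h.trans ⟨3 * N, by ring⟩)) n₁
  have hw' : (6 * N : ℤ) ∣ w := (dvd_sub_left dvd_rfl).1 hw
  have hw0 : w ≠ 0 := fun h => nd q₁ _ _ hq₁ d₂ (h ▸ dvd_zero _)
  obtain ⟨q₃, hq₃, f₁⟩ := Nat.exists_prime_and_dvd
    (n := (1 + 25 * a * w ^ 4).natAbs) (by
      have : a * w ^ 4 ≠ 0 := by positivity
      rw [mul_assoc]
      generalize a * w ^ 4 = t at this
      omega)
  rw [← Int.natCast_dvd] at f₁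
  have n₃ : ¬(q₃ : ℤ) ∣ 6 * N := fun h => nd q₃ _ _ hq₃ f₁ (h.trans hw')
  have hp₃ : Prime (q₃ : ℤ) := Nat.prime_iff_prime_int.1 hq₃
  have n₃₁ : ¬(q₃ : ℤ) ∣ 6 * N * (q₁ : ℤ) ^ 2 := by
    intro h
    rcases hp₃.dvd_or_dvd h with h | h
    · exact n₃ h
    · have h' := hp₃.dvd_of_dvd_pow h
      rw [Int.natCast_dvd_natCast, Nat.prime_dvd_prime_iff_eq hq₃ hq₁] at h'
      exact nine q₁ w hq₁ hw' d₂ (h' ▸ f₁)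
  obtain ⟨n, hn, f₂, f₃⟩ := adjust (25 * a) w (6 * N * (q₁ : ℤ) ^ 2) hq₃ f₁
    (fun h => n₃ (h.trans ⟨3 * N, by ring⟩)) n₃₁
  have hn' : (6 * N : ℤ) ∣ n := (dvd_sub_left hw').1 ((dvd_mul_right _ _).trans hn)
  have hd : (q₁ : ℤ) ^ 2 ∣ (1 + 16 * a * n ^ 4) - (1 + 16 * a * w ^ 4) := by
    have h1 : (q₁ : ℤ) ^ 2 ∣ n - w := (dvd_mul_left _ _).trans hn
    have : (1 + 16 * a * n ^ 4) - (1 + 16 * a * w ^ 4) =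
      (n - w) * (16 * a * (n ^ 3 + n ^ 2 * w + n * w ^ 2 + w ^ 3)) := by ring
    rw [this]; exact h1.mul_right _
  have g₁ : (q₁ : ℤ) ∣ 1 + 16 * a * n ^ 4 :=
    (dvd_sub_left d₂).1 ((dvd_pow_self _ two_ne_zero).trans hd)
  refine ⟨n, q₁, q₃, hq₁, hq₃, (dvd_mul_left _ _).trans hn', g₁, ?_, nine q₁ n hq₁ hn' g₁, f₂, f₃⟩
  intro h
  exact d₃ ((dvd_sub_right h).1 hd)

end Pool.Agent.Lib.MP_7d3fda_nt
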