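import Pool.Agent.Lib.MP_7d3fda_nt.Family

/-! From a pair of primes to a squarefree `d` with a rank two twist. -/

namespace Pool.Agent.Lib.MP_7d3fda_nt

lemma transfer1 {q : ℕ} (hq : q.Prime) {Q A B u : ℤ} (hQ : (q : ℤ) ^ 2 ∣ Q)
    (h : A ≡ u ^ 2 * B [ZMOD Q]) (hu : ¬(q : ℤ) ∣ u) (h1 : (q : ℤ) ∣ B)
    (h2 : ¬(q : ℤ) ^ 2 ∣ B) : (q : ℤ) ∣ A ∧ ¬(q : ℤ) ^ 2 ∣ A := by
  have hd : (q : ℤ) ^ 2 ∣ u ^ 2 * B - A := hQ.trans h.dvd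
  have hp : Prime (q : ℤ) := Nat.prime_iff_prime_int.1 hq
  constructor
  · exact (dvd_sub_right (h1.mul_left _)).1 ((dvd_pow_self _ two_ne_zero).trans hd)
  · intro hA
    exact h2 (hp.pow_dvd_of_dvd_mul_left 2 (fun h => hu (hp.dvd_of_dvd_pow h))
      ((dvd_sub_left hA).1 hd))

lemma transfer0 {q : ℕ} (hq : q.Prime) {Q A B u : ℤ} (hQ : (q : ℤ) ^ 2 ∣ Q)
    (h : A ≡ u ^ 2 * B [ZMOD Q]) (hu : ¬(q : ℤ) ∣ u) (h1 : ¬(q : ℤ) ∣ B) : ¬(q : ℤ) ∣ A := by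
  have hd : (q : ℤ) ∣ u ^ 2 * B - A := ((dvd_pow_self _ two_ne_zero).trans hQ).trans h.dvd
  have hp : Prime (q : ℤ) := Nat.prime_iff_prime_int.1 hq
  intro hA
  rcases hp.dvd_or_dvd ((dvd_sub_left hA).1 hd) with h | h
  · exact hu (hp.dvd_of_dvd_pow h)
  · exact h1 h

lemma dvd_sqfree_part {p d k R : ℤ} (hp : Prime p) (h : d * k ^ 2 = p * R) (hR : ¬p ∣ R) :
    p ∣ d := by
  rcases hp.dvd_or_dvd (Dvd.intro _ h.symm) with h1 | h1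
  · exact h1
  exfalso
  obtain ⟨j, rfl⟩ := hp.dvd_of_dvd_pow h1
  apply hR
  refine ⟨d * j ^ 2, mul_left_cancel₀ hp.ne_zero ?_⟩
  rw [← h]; ring

lemma sq_part {G ε : ℤ} (hε : ε = 1 ∨ ε = -1) (hG : 0 < ε * G) :
    ∃ d k : ℤ, Squarefree d ∧ 0 < ε * d ∧ k ≠ 0 ∧ d * k ^ 2 = G ∧ |d| ≤ |G| := by
  have hG0 : G ≠ 0 := by rintro rfl; simp at hG
  obtain ⟨b, k, hb, hk, e, hs⟩ := Nat.sq_mul_squarefree_of_pos (Int.natAbs_pos.2 hG0)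
  have e' : (k : ℤ) ^ 2 * b = |G| := by rw [← Int.natCast_natAbs]; exact_mod_cast e
  have hb' : (0 : ℤ) < b := by exact_mod_cast hb
  have hk' : (1 : ℤ) ≤ k := by exact_mod_cast hk
  have hk2 : (1 : ℤ) ≤ (k : ℤ) ^ 2 := one_le_pow₀ hk'
  have hle : (b : ℤ) ≤ |G| := by rw [← e']; nlinarith
  rcases hε with rfl | rfl
  · refine ⟨b, k, Int.squarefree_natCast.2 hs, by linarith, by omega, ?_, by rwa [abs_of_pos hb']⟩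
    rw [abs_of_pos (by linarith)] at e'
    linarith
  · refine ⟨-b, k, ?_, by linarith, by omega, ?_, by rwa [abs_neg, abs_of_pos hb']⟩
    · rw [← Int.squarefree_natAbs]; simpa using hs
    · rw [abs_of_neg (by linarith)] at e'
      linarith

theorem pair {a : ℤ} (ha : a ≠ 0) {N : ℕ} (hN : 0 < N) {ε : ℤ} (hε : ε = 1 ∨ ε = -1) :
    ∃ Q L C : ℕ, 0 < Q ∧ 0 < C ∧ ∀ u v : ℕ, u.Prime → v.Prime → L < u → u < v →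
      u ≡ v [MOD Q] → ∃ d : ℤ, Squarefree d ∧ 0 < ε * d ∧ |d| ≤ C * (v : ℤ) ^ 8 ∧
        (u : ℤ) ∣ d ∧ (v : ℤ) ∣ d ∧ IsUnit (d : ZMod N) ∧ IsSquare (d : ZMod N) ∧
        ∀ m : ℚ, m ≠ 0 → 2 ≤ Module.rank ℤ (cv ((a : ℚ) / m ^ 4 * (d : ℚ) ^ 2)).Point := by
  obtain ⟨n, q₁, q₃, hq₁, hq₃, hNn, b₁, b₂, b₃, c₁, c₂⟩ := aux_primes ha hN
  have na : ∀ (q : ℕ) (c : ℤ), q.Prime → (q : ℤ) ∣ 1 + c * a * n ^ 4 → ¬(q : ℤ) ∣ a := by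
    intro q c hq h hw
    exact (Nat.prime_iff_prime_int.1 hq).not_dvd_one
      ((dvd_add_left ((hw.mul_left c).mul_right _)).1 h)
  have hn0 : n ≠ 0 := by
    rintro rfl
    exact (Nat.prime_iff_prime_int.1 hq₁).not_dvd_one (by simpa using b₁)
  obtain ⟨Q, hQ⟩ : ∃ x : ℕ, x = N * q₁ ^ 2 * q₃ ^ 2 := ⟨_, rfl⟩
  have hQ2 : 2 ≤ Q := by
    have h1 : 2 ≤ q₁ ^ 2 := by nlinarith [hq₁.two_le]
    have h2 : 1 ≤ q₃ ^ 2 := Nat.one_le_pow _ _ hq₃.pos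
    calc 2 = 1 * 2 * 1 := by norm_num
      _ ≤ Q := by rw [hQ]; gcongr; exact hN
  have hQ2' : (2 : ℤ) ≤ Q := by exact_mod_cast hQ2
  have hQ1 : (q₁ : ℤ) ^ 2 ∣ (Q : ℤ) := by rw [hQ]; push_cast; exact ⟨N * q₃ ^ 2, by ring⟩
  have hQ3 : (q₃ : ℤ) ^ 2 ∣ (Q : ℤ) := by rw [hQ]; push_cast; exact ⟨N * q₁ ^ 2, by ring⟩
  have hQN : (N : ℤ) ∣ (Q : ℤ) := by rw [hQ]; push_cast; exact ⟨q₁ ^ 2 * q₃ ^ 2, by ring⟩
  obtain ⟨κ, hκ1, hκε⟩ : ∃ κ : ℤ, κ ≡ 1 [ZMOD Q] ∧ 0 < ε * κ := by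
    rcases hε with rfl | rfl
    · exact ⟨1, rfl, by norm_num⟩
    · exact ⟨1 - Q, Int.ModEq.symm (Int.modEq_iff_dvd.2 ⟨-1, by ring⟩), by linarith⟩
  have hκ0 : κ ≠ 0 := by rintro rfl; simp at hκε
  obtain ⟨T, hT⟩ : ∃ x : ℤ, x = 25 * |a| * κ ^ 2 * n ^ 4 := ⟨_, rfl⟩
  have hT0 : 0 ≤ T := by rw [hT]; positivity
  obtain ⟨s, hs⟩ : ∃ x : ℤ, x = 1 + Q * T := ⟨_, rfl⟩
  have hsT : T < s := by nlinarith
  have hs1 : 1 ≤ s := by nlinarith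
  have hsQ : s ≡ 1 [ZMOD Q] := Int.ModEq.symm (Int.modEq_iff_dvd.2 ⟨T, by rw [hs]; ring⟩)
  have hP0 : 2 * 5 * a * κ * n * s * Q ≠ 0 := by positivity
  refine ⟨Q, (2 * 5 * a * κ * n * s * Q).natAbs, (8 * κ * s ^ 12).natAbs, by omega,
    Int.natAbs_pos.2 (by positivity), ?_⟩
  intro u v hu hv hL huv hm
  have := Fact.mk hu
  have := Fact.mk hq₁
  have := Fact.mk hq₃
  have big : ∀ p : ℕ, u ≤ p → ¬(p : ℤ) ∣ 2 * 5 * a * κ * n * s * Q := by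
    intro p hp h
    have := Nat.le_of_dvd (Int.natAbs_pos.2 hP0) (Int.natCast_dvd.1 h)
    omega
  have nd : ∀ p : ℕ, u ≤ p → ¬(p : ℤ) ∣ 2 ∧ ¬(p : ℤ) ∣ 5 ∧ ¬(p : ℤ) ∣ a ∧ ¬(p : ℤ) ∣ κ ∧
      ¬(p : ℤ) ∣ n ∧ ¬(p : ℤ) ∣ s ∧ ¬(p : ℤ) ∣ Q := by
    intro p hp
    refine ⟨?_, ?_, ?_, ?_, ?_, ?_, ?_⟩ <;> intro h <;> apply big p hp <;> refine h.trans ?_
    · exact ⟨5 * a * κ * n * s * Q, by ring⟩
    · exact ⟨2 * a * κ * n * s * Q, by ring⟩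
    · exact ⟨2 * 5 * κ * n * s * Q, by ring⟩
    · exact ⟨2 * 5 * a * n * s * Q, by ring⟩
    · exact ⟨2 * 5 * a * κ * s * Q, by ring⟩
    · exact ⟨2 * 5 * a * κ * n * Q, by ring⟩
    · exact ⟨2 * 5 * a * κ * n * s, by ring⟩
  obtain ⟨u2, -, ua, uκ, un, us, uQ⟩ := nd u le_rfl
  obtain ⟨v2, v5, va, vκ, vn, -, -⟩ := nd v huv.le
  have pu : Prime (u : ℤ) := Nat.prime_iff_prime_int.1 hu
  have pv : Prime (v : ℤ) := Nat.prime_iff_prime_int.1 hv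
  have uv : ¬(u : ℤ) ∣ v := by
    rw [Int.natCast_dvd_natCast, Nat.prime_dvd_prime_iff_eq hu hv]; omega
  have vu : ¬(v : ℤ) ∣ u := by
    rw [Int.natCast_dvd_natCast, Nat.prime_dvd_prime_iff_eq hv hu]; omega
  have qu : ∀ q : ℕ, q.Prime → (q : ℤ) ^ 2 ∣ (Q : ℤ) → ¬(q : ℤ) ∣ u := by
    intro q hq h1 h2
    rw [Int.natCast_dvd_natCast, Nat.prime_dvd_prime_iff_eq hq hu] at h2
    exact uQ (h2 ▸ (dvd_pow_self _ two_ne_zero).trans h1)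
  obtain ⟨U, hU⟩ : ∃ x : ℤ, x = κ * u * n ^ 2 := ⟨_, rfl⟩
  obtain ⟨V, hV⟩ : ∃ x : ℤ, x = v * s ^ 2 := ⟨_, rfl⟩
  have hu0 : (0 : ℤ) < u := by exact_mod_cast hu.pos
  have huv' : (u : ℤ) < v := by exact_mod_cast huv
  have hz : 25 * |a * U ^ 2| < V ^ 2 := by
    have e1 : 25 * |a * U ^ 2| = T * u ^ 2 := by
      rw [abs_mul, abs_of_nonneg (sq_nonneg U), hT, hU]; ring
    have e2 : V ^ 2 = s ^ 4 * v ^ 2 := by rw [hV]; ring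
    have e3 : s ≤ s ^ 4 := le_self_pow₀ hs1 (by norm_num)
    rw [e1, e2]
    calc T * u ^ 2 ≤ T * v ^ 2 := by gcongr
      _ < s ^ 4 * v ^ 2 := mul_lt_mul_of_pos_right (by linarith) (pow_pos (by linarith) 2)
  have hz1 := le_abs_self (a * U ^ 2)
  have hz2 := neg_abs_le (a * U ^ 2)
  have hz3 := abs_nonneg (a * U ^ 2)
  obtain ⟨A₁, e₁⟩ : ∃ x : ℤ, x = V ^ 2 + 16 * a * U ^ 2 := ⟨_, rfl⟩
  obtain ⟨A₂, e₂⟩ : ∃ x : ℤ, x = V ^ 2 - 20 * a * U ^ 2 := ⟨_, rfl⟩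
  obtain ⟨A₃, e₃⟩ : ∃ x : ℤ, x = V ^ 2 + 25 * a * U ^ 2 := ⟨_, rfl⟩
  have p₁ : 0 < A₁ := by rw [e₁]; linarith
  have p₂ : 0 < A₂ := by rw [e₂]; linarith
  have p₃ : 0 < A₃ := by rw [e₃]; linarith
  have l₁ : A₁ ≤ 2 * V ^ 2 := by rw [e₁]; linarith
  have l₂ : A₂ ≤ 2 * V ^ 2 := by rw [e₂]; linarith
  have l₃ : A₃ ≤ 2 * V ^ 2 := by rw [e₃]; linarith
  have hv0 : (0 : ℤ) < v := by linarith
  obtain ⟨d, k, hd, hdε, hk, edk, hdle⟩ := sq_part (G := κ * u * v * A₁ * A₂ * A₃) hε (by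
    have : ε * (κ * u * v * A₁ * A₂ * A₃) = ε * κ * (u * v * A₁ * A₂ * A₃) := by ring
    rw [this]; positivity)
  have uA : ∀ c : ℤ, ¬(u : ℤ) ∣ V ^ 2 + c * U ^ 2 := by
    intro c h
    have h1 : (u : ℤ) ∣ c * U ^ 2 := ⟨c * κ ^ 2 * u * n ^ 4, by rw [hU]; ring⟩
    have h0 := pu.dvd_of_dvd_pow ((dvd_add_left h1).1 h)
    rw [hV] at h0
    rcases pu.dvd_or_dvd h0 with h2 | h2
    · exact uv h2
    · exact us (pu.dvd_of_dvd_pow h2)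
  have vA : ∀ c : ℤ, ¬(v : ℤ) ∣ c → ¬(v : ℤ) ∣ V ^ 2 + c * a * U ^ 2 := by
    intro c hc h
    have h1 : (v : ℤ) ∣ V ^ 2 := ⟨v * s ^ 4, by rw [hV]; ring⟩
    rcases pv.dvd_or_dvd ((dvd_add_right h1).1 h) with h2 | h2
    · exact (pv.dvd_or_dvd h2).elim hc va
    · have h0 := pv.dvd_of_dvd_pow h2
      rw [hU] at h0
      rcases pv.dvd_or_dvd h0 with h3 | h3
      · exact (pv.dvd_or_dvd h3).elim vκ vu
      · exact vn (pv.dvd_of_dvd_pow h3)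
  have u1 : ¬(u : ℤ) ∣ A₁ := e₁ ▸ uA (16 * a)
  have u3 : ¬(u : ℤ) ∣ A₃ := e₃ ▸ uA (25 * a)
  have u2' : ¬(u : ℤ) ∣ A₂ := by
    have := uA (-20 * a)
    rwa [show V ^ 2 + -20 * a * U ^ 2 = A₂ by rw [e₂]; ring] at this
  have v1 : ¬(v : ℤ) ∣ A₁ := e₁ ▸ vA 16 (fun h => v2 (pv.dvd_of_dvd_pow (n := 4) (by simpa using h)))
  have v3 : ¬(v : ℤ) ∣ A₃ := e₃ ▸ vA 25 (fun h => v5 (pv.dvd_of_dvd_pow (n := 2) (by simpa using h)))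
  have v2' : ¬(v : ℤ) ∣ A₂ := by
    have := vA (-20) (fun h => by
      have h' : (v : ℤ) ∣ 2 ^ 2 * 5 := by simpa using h
      exact (pv.dvd_or_dvd h').elim (fun h => v2 (pv.dvd_of_dvd_pow h)) v5)
    rwa [show V ^ 2 + -20 * a * U ^ 2 = A₂ by rw [e₂]; ring] at this
  have uR : ¬(u : ℤ) ∣ κ * v * A₁ * A₂ * A₃ := by
    simp only [pu.dvd_mul, not_or]
    exact ⟨⟨⟨⟨uκ, uv⟩, u1⟩, u2'⟩, u3⟩
  have vR : ¬(v : ℤ) ∣ κ * u * A₁ * A₂ * A₃ := by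
    simp only [pv.dvd_mul, not_or]
    exact ⟨⟨⟨⟨vκ, vu⟩, v1⟩, v2'⟩, v3⟩
  have hm' : (v : ℤ) ≡ u [ZMOD Q] := (Int.natCast_modEq_iff.2 hm).symm
  have mU : U ≡ u * n ^ 2 [ZMOD Q] := by
    have := (hκ1.mul_right u).mul_right (n ^ 2)
    rwa [one_mul, ← hU] at this
  have mV : V ≡ u [ZMOD Q] := by
    have := hm'.mul (hsQ.pow 2)
    rwa [one_pow, mul_one, ← hV] at this
  have mA : ∀ c : ℤ, V ^ 2 + c * a * U ^ 2 ≡ u ^ 2 * (1 + c * a * n ^ 4) [ZMOD Q] := by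
    intro c
    have := (mV.pow 2).add ((mU.pow 2).mul_left (c * a))
    rwa [show (u : ℤ) ^ 2 + c * a * (u * n ^ 2) ^ 2 = u ^ 2 * (1 + c * a * n ^ 4) by ring] at this
  obtain ⟨t₁, t₂⟩ := transfer1 hq₁ hQ1 (mA 16) (qu q₁ hq₁ hQ1) b₁ b₂
  have t₃ := transfer0 hq₁ hQ1 (mA 25) (qu q₁ hq₁ hQ1) b₃
  obtain ⟨t₄, t₅⟩ := transfer1 hq₃ hQ3 (mA 25) (qu q₃ hq₃ hQ3) c₁ c₂
  rw [← e₁] at t₁ t₂
  rw [← e₃] at t₃ t₄ t₅
  have cast : (d : ZMod N) * (k : ZMod N) ^ 2 = ((u : ZMod N) ^ 4) ^ 2 := by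
    have z : ∀ {x y : ℤ}, x ≡ y [ZMOD Q] → (x : ZMod N) = y := fun h =>
      (ZMod.intCast_eq_intCast_iff _ _ _).2 (h.of_dvd hQN)
    have zn : (n : ZMod N) = 0 := (ZMod.intCast_zmod_eq_zero_iff_dvd _ _).2 hNn
    have z1 := z hκ1
    have z2 := z hm'
    have z3 := z mV
    have z4 := z mU
    have := congrArg (Int.cast : ℤ → ZMod N) edk
    rw [e₁, e₂, e₃] at this
    push_cast at this z1 z2 z3 z4
    rw [this, z1, z2, z3, z4, zn]; ring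
  have unit : IsUnit (u : ZMod N) := by
    rw [ZMod.isUnit_iff_coprime, hu.coprime_iff_not_dvd]
    intro h
    exact uQ ((Int.natCast_dvd_natCast.2 h).trans hQN)
  have unit2 : IsUnit ((d : ZMod N) * (k : ZMod N) ^ 2) := cast ▸ (unit.pow 4).pow 2
  refine ⟨d, hd, hdε, ?_, dvd_sqfree_part pu (by rw [edk]; ring) uR,
    dvd_sqfree_part pv (by rw [edk]; ring) vR, isUnit_of_mul_isUnit_left unit2, ?_, ?_⟩
  · refine hdle.trans ?_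
    rw [Int.natCast_natAbs]
    have : κ * u * v * A₁ * A₂ * A₃ = κ * (u * v * A₁ * A₂ * A₃) := by ring
    rw [this, abs_mul, abs_of_pos (a := u * v * A₁ * A₂ * A₃) (by positivity), abs_mul, abs_mul,
      abs_of_pos (a := s ^ 12) (by positivity)]
    calc |κ| * (u * v * A₁ * A₂ * A₃) ≤ |κ| * (v * v * (2 * V ^ 2) * (2 * V ^ 2) * (2 * V ^ 2)) := by
          gcongr
      _ = _ := by rw [hV]; norm_num; ring
  · obtain ⟨k', hk'⟩ := ((isUnit_pow_iff two_ne_zero).1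
      (isUnit_of_mul_isUnit_right unit2)).exists_right_inv
    exact ⟨(u : ZMod N) ^ 4 * k', by
      linear_combination k' ^ 2 * cast - (d : ZMod N) * ((k : ZMod N) * k' + 1) * hk'⟩
  · intro m hm0
    have hK : (k : ℚ) * n * s * m ≠ 0 := by
      have : s ≠ 0 := by omega
      positivity
    have eG : U * V * A₁ * A₂ * A₃ = u * (n ^ 2 * s ^ 2 * (κ * v * A₁ * A₂ * A₃)) := by
      rw [hU, hV]; ring
    have uR' : ¬(u : ℤ) ∣ n ^ 2 * s ^ 2 * (κ * v * A₁ * A₂ * A₃) := by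
      intro h
      rcases pu.dvd_or_dvd h with h | h
      · exact (pu.dvd_or_dvd h).elim (fun h => un (pu.dvd_of_dvd_pow h))
          (fun h => us (pu.dvd_of_dvd_pow h))
      · exact uR h
    have := family hK e₁ e₂ e₃ rfl (u := u) (q₁ := q₁) (q₃ := q₃)
      (fun h => u2 (by rw [h]; rfl)) ua u1 u3 (eG ▸ dvd_mul_right _ _)
      (by rw [eG, sq, mul_dvd_mul_iff_left pu.ne_zero]; exact uR') (na q₁ 16 hq₁ b₁) t₁ t₂ t₃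
      (na q₃ 25 hq₃ c₁) t₄ t₅
    have eG2 : U * V * A₁ * A₂ * A₃ = d * (k * n * s) ^ 2 := by
      rw [eG, show d * (k * n * s) ^ 2 = n ^ 2 * s ^ 2 * (d * k ^ 2) by ring, edk]; ring
    have e : (a : ℚ) * (((U * V * A₁ * A₂ * A₃ : ℤ) : ℚ) / ((k : ℚ) * n * s * m) ^ 2) ^ 2 =
        (a : ℚ) / m ^ 4 * (d : ℚ) ^ 2 := by
      have h1 : (k : ℚ) ≠ 0 := by exact_mod_cast hk
      have h2 : (n : ℚ) ≠ 0 := by exact_mod_cast hn0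
      have h3 : (s : ℚ) ≠ 0 := by
        have : s ≠ 0 := by omega
        exact_mod_cast this
      rw [eG2]; push_cast; field_simp
    rwa [e] at this

end Pool.Agent.Lib.MP_7d3fda_nt
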